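import Pool.Agent.Helper75.CS.Final
import Pool.Agent.Helper75.CQ.Rate7

/-!
# Cap sets of size 2.2224 ^ r in Z_3 ^ r for all large r

Extended product construction (Edel) over the classical collection of sizes 12, 112, 112 in
F_3 ^ 6, with the two caps of size 112 split further into pieces of sizes 80, 32.  Unions of
products of the pieces (words of length 7 over the pieces, found by computer and checked by the
kernel) give a collection in F_3 ^ 42; a tournament level multiplies the dimension by three, and
last comes the language of the closed walks of a graph with 4 states and 66 edges.  The words of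
this language are admissible for every length; their number is given by the spectral radius
222.35 of the graph.
-/

namespace Pool.Agent.Results.MP_06b118_co.Rate22224

theorem result : ∃ r₀ : ℕ, ∀ r ≥ r₀, ∃ A : Finset (Fin r → ZMod 3),
    (∀ a ∈ A, ∀ b ∈ A, ∀ c ∈ A, a ≠ b → b ≠ c → a ≠ c → a + b + c ≠ 0) ∧
      (22224 / 10000 : ℝ) ^ r ≤ (A.card : ℝ) := by
  obtain ⟨r₀, h⟩ := Pool.Agent.Helper75.CQ.Rate7.rate
  refine ⟨r₀, fun r hr => ?_⟩
  obtain ⟨A, hA, hc⟩ := Pool.Agent.Helper75.CS.exists_capNum r
  exact ⟨A, hA, by rw [hc]; exact h r hr⟩

end Pool.Agent.Results.MP_06b118_co.Rate22224
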